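import Mathlib

/-! PROJECT RN (S11118), plan C, module B4: positions of the hubs in the plane.

Hub `(X, y)` (column `X`, row `y`, both integers) is drawn at `(X, F X y)`.  At the columns `L * k`
the rows are stacked with spacing `1`, except one gap of height `3` (which contains the leaf of that
column at height `1`); between multiples of `L` everything is affine in `X`. -/

set_option autoImplicit false

namespace Pool.H50.RNC

/-- height of row `y` in a leaf column whose tip offset is `ρ` and whose leaf gap is between the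
rows `gp` and `gp + 1` -/
noncomputable def hgt (ρ gp y : ℤ) : ℝ := ((y - ρ : ℤ) : ℝ) + if gp < y then 2 else 0

/-- the height function of the drawing -/
noncomputable def F (L : ℤ) (ρ gp : ℤ → ℤ) (X y : ℤ) : ℝ :=
  hgt (ρ (X / L)) (gp (X / L)) y +
    ((X % L : ℤ) : ℝ) / (L : ℝ) *
      (hgt (ρ (X / L + 1)) (gp (X / L + 1)) y - hgt (ρ (X / L)) (gp (X / L)) y)

theorem hgt_mono (ρ gp y y' : ℤ) (h : y ≤ y') : ((y' - y : ℤ) : ℝ) ≤ hgt ρ gp y' - hgt ρ gp y := by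
  unfold hgt
  push_cast
  split_ifs with h1 h2 h2
  · linarith
  · linarith
  · exfalso; omega
  · linarith

theorem hgt_diff (ρ gp ρ' gp' y : ℤ) :
    |hgt ρ' gp' y - hgt ρ gp y| ≤ ((|ρ' - ρ| + 2 : ℤ) : ℝ) := by
  unfold hgt
  have h1 : |((ρ' : ℝ) - (ρ : ℝ))| = ((|ρ' - ρ| : ℤ) : ℝ) := by push_cast; rfl
  rw [Int.cast_add, ← h1, abs_le]
  have h2 := neg_abs_le ((ρ' : ℝ) - (ρ : ℝ))
  have h3 := le_abs_self ((ρ' : ℝ) - (ρ : ℝ))
  push_cast
  constructor <;> split_ifs <;> linarith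

theorem F_mul (L : ℤ) (hL : 0 < L) (ρ gp : ℤ → ℤ) (k y : ℤ) :
    F L ρ gp (L * k) y = hgt (ρ k) (gp k) y := by
  unfold F
  rw [Int.mul_ediv_cancel_left _ hL.ne', Int.mul_emod_right]
  simp

theorem F_step (L : ℤ) (hL : 0 < L) (ρ gp : ℤ → ℤ) (X y : ℤ) :
    F L ρ gp (X + 1) y - F L ρ gp X y =
      (hgt (ρ (X / L + 1)) (gp (X / L + 1)) y - hgt (ρ (X / L)) (gp (X / L)) y) / (L : ℝ) := by
  have hLr : (0 : ℝ) < (L : ℝ) := by exact_mod_cast hL
  have hdm := Int.emod_add_mul_ediv X L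
  have h0 := Int.emod_nonneg X hL.ne'
  have h1 := Int.emod_lt_of_pos X hL
  by_cases h : X % L + 1 < L
  · have hq : (X + 1) / L = X / L := by
      rw [Int.ediv_eq_iff_of_pos hL]
      constructor <;> nlinarith
    have hr : (X + 1) % L = X % L + 1 := by
      have := Int.emod_add_mul_ediv (X + 1) L
      rw [hq] at this
      linarith
    unfold F
    rw [hq, hr]
    push_cast
    field_simp
    ring
  · have hr' : X % L = L - 1 := by omega
    have hX : X + 1 = L * (X / L + 1) := by linarith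
    have hrr : ((X % L : ℤ) : ℝ) = (L : ℝ) - 1 := by rw [hr']; push_cast; ring
    rw [hX, F_mul L hL]
    unfold F
    have hq2 : (X : ℤ) / L = X / L := rfl
    rw [hrr]
    field_simp
    ring


/-- the data of a drawing: slopes at most `1/2` -/
structure Ok (L : ℤ) (ρ : ℤ → ℤ) : Prop where
  pos : 0 < L
  slope : ∀ k : ℤ, 2 * (|ρ (k + 1) - ρ k| + 2) ≤ L

theorem F_step_abs {L : ℤ} {ρ : ℤ → ℤ} (h : Ok L ρ) (gp : ℤ → ℤ) (X y : ℤ) :
    |F L ρ gp (X + 1) y - F L ρ gp X y| ≤ 1 / 2 := by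
  have hLr : (0 : ℝ) < (L : ℝ) := by exact_mod_cast h.pos
  rw [F_step L h.pos, abs_div, abs_of_pos hLr, div_le_iff₀ hLr]
  have h1 := hgt_diff (ρ (X / L)) (gp (X / L)) (ρ (X / L + 1)) (gp (X / L + 1)) y
  have h2 := h.slope (X / L)
  have h3 : ((2 * (|ρ (X / L + 1) - ρ (X / L)| + 2) : ℤ) : ℝ) ≤ (L : ℝ) := by exact_mod_cast h2
  rw [Int.cast_mul] at h3
  push_cast at h3 h1 ⊢
  linarith

theorem F_spacing {L : ℤ} {ρ : ℤ → ℤ} (h : Ok L ρ) (gp : ℤ → ℤ) (X y y' : ℤ) (hy : y ≤ y') :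
    ((y' - y : ℤ) : ℝ) ≤ F L ρ gp X y' - F L ρ gp X y := by
  have hLr : (0 : ℝ) < (L : ℝ) := by exact_mod_cast h.pos
  have h0 := Int.emod_nonneg X h.pos.ne'
  have h1 := Int.emod_lt_of_pos X h.pos
  set u : ℝ := ((X % L : ℤ) : ℝ) / (L : ℝ) with hu
  have hu0 : 0 ≤ u := div_nonneg (by exact_mod_cast h0) hLr.le
  have hu1 : u ≤ 1 := by
    rw [hu, div_le_one hLr]; exact_mod_cast h1.le
  have e1 := hgt_mono (ρ (X / L)) (gp (X / L)) y y' hy
  have e2 := hgt_mono (ρ (X / L + 1)) (gp (X / L + 1)) y y' hy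
  have hF : ∀ z, F L ρ gp X z = (1 - u) * hgt (ρ (X / L)) (gp (X / L)) z +
      u * hgt (ρ (X / L + 1)) (gp (X / L + 1)) z := by
    intro z; unfold F; rw [← hu]; ring
  rw [hF, hF]
  nlinarith [mul_le_mul_of_nonneg_left e1 (sub_nonneg.2 hu1), mul_le_mul_of_nonneg_left e2 hu0]

theorem F_sep {L : ℤ} {ρ : ℤ → ℤ} (h : Ok L ρ) (gp : ℤ → ℤ) (X y y' : ℤ) (hy : y ≠ y') :
    1 ≤ |F L ρ gp X y' - F L ρ gp X y| := by
  rcases lt_or_gt_of_ne hy with h1 | h1
  · have := F_spacing h gp X y y' h1.le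
    have h2 : (1 : ℝ) ≤ ((y' - y : ℤ) : ℝ) := by exact_mod_cast (by omega : (1 : ℤ) ≤ y' - y)
    exact le_trans (h2.trans this) (le_abs_self _)
  · have := F_spacing h gp X y' y h1.le
    have h2 : (1 : ℝ) ≤ ((y - y' : ℤ) : ℝ) := by exact_mod_cast (by omega : (1 : ℤ) ≤ y - y')
    rw [abs_sub_comm]
    exact le_trans (h2.trans this) (le_abs_self _)

/-- Gabriel condition for a horizontal edge `(X, y) - (X + 1, y)`, in coordinates -/
theorem gabriel_h {L : ℤ} {ρ : ℤ → ℤ} (h : Ok L ρ) (gp : ℤ → ℤ) (X y X' y' : ℤ)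
    (h1 : ¬ (X' = X ∧ y' = y)) (h2 : ¬ (X' = X + 1 ∧ y' = y)) :
    (1 + (F L ρ gp (X + 1) y - F L ρ gp X y) ^ 2) / 4 + 1 / 2 ≤
      ((X' : ℝ) - ((X : ℝ) + 1 / 2)) ^ 2 +
        (F L ρ gp X' y' - (F L ρ gp X y + F L ρ gp (X + 1) y) / 2) ^ 2 := by
  have hs := abs_le.1 (F_step_abs h gp X y)
  have hs2 : (F L ρ gp (X + 1) y - F L ρ gp X y) ^ 2 ≤ 1 / 4 := by nlinarith [hs.1, hs.2]
  by_cases hX : X' = X
  · subst hX
    have hy : y ≠ y' := fun e => h1 ⟨rfl, e.symm⟩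
    have h3 := F_sep h gp X' y y' hy
    have h4 : 3 / 4 ≤ |F L ρ gp X' y' - (F L ρ gp X' y + F L ρ gp (X' + 1) y) / 2| := by
      rcases le_abs.1 h3 with h5 | h5
      · refine le_trans ?_ (le_abs_self _)
        linarith [hs.1, hs.2]
      · refine le_trans ?_ (neg_le_abs _)
        linarith [hs.1, hs.2]
    have h5 : (3 / 4 : ℝ) ^ 2 ≤ (F L ρ gp X' y' - (F L ρ gp X' y + F L ρ gp (X' + 1) y) / 2) ^ 2 := by
      rw [← sq_abs (F L ρ gp X' y' - _)]
      exact pow_le_pow_left₀ (by norm_num) h4 2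
    nlinarith
  · by_cases hX1 : X' = X + 1
    · subst hX1
      have hy : y ≠ y' := fun e => h2 ⟨rfl, e.symm⟩
      have h3 := F_sep h gp (X + 1) y y' hy
      have h4 : 3 / 4 ≤ |F L ρ gp (X + 1) y' - (F L ρ gp X y + F L ρ gp (X + 1) y) / 2| := by
        rcases le_abs.1 h3 with h5 | h5
        · refine le_trans ?_ (le_abs_self _)
          linarith [hs.1, hs.2]
        · refine le_trans ?_ (neg_le_abs _)
          linarith [hs.1, hs.2]
      have h5 : (3 / 4 : ℝ) ^ 2 ≤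
          (F L ρ gp (X + 1) y' - (F L ρ gp X y + F L ρ gp (X + 1) y) / 2) ^ 2 := by
        rw [← sq_abs (F L ρ gp (X + 1) y' - _)]
        exact pow_le_pow_left₀ (by norm_num) h4 2
      push_cast
      nlinarith
    · have h3 : X' ≤ X - 1 ∨ X + 2 ≤ X' := by omega
      have h4 : (3 / 2 : ℝ) ^ 2 ≤ ((X' : ℝ) - ((X : ℝ) + 1 / 2)) ^ 2 := by
        rcases h3 with h3 | h3
        · have : (X' : ℝ) ≤ (X : ℝ) - 1 := by exact_mod_cast h3
          nlinarith
        · have : (X : ℝ) + 2 ≤ (X' : ℝ) := by exact_mod_cast h3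
          nlinarith
      nlinarith [sq_nonneg (F L ρ gp X' y' - (F L ρ gp X y + F L ρ gp (X + 1) y) / 2)]

/-- Gabriel condition for a vertical edge `(X, y) - (X, y + 1)` of length one, in coordinates -/
theorem gabriel_v {L : ℤ} {ρ : ℤ → ℤ} (h : Ok L ρ) (gp : ℤ → ℤ) (X y X' y' : ℤ)
    (hv : F L ρ gp X (y + 1) = F L ρ gp X y + 1)
    (h1 : ¬ (X' = X ∧ y' = y)) (h2 : ¬ (X' = X ∧ y' = y + 1)) :
    (1 : ℝ) / 4 + 1 / 2 ≤
      ((X' : ℝ) - (X : ℝ)) ^ 2 +
        (F L ρ gp X' y' - (F L ρ gp X y + F L ρ gp X (y + 1)) / 2) ^ 2 := by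
  by_cases hX : X' = X
  · subst hX
    have h3 : y' ≤ y - 1 ∨ y + 2 ≤ y' := by
      have : y' ≠ y := fun e => h1 ⟨rfl, e⟩
      have : y' ≠ y + 1 := fun e => h2 ⟨rfl, e⟩
      omega
    rcases h3 with h3 | h3
    · have h4 := F_spacing h gp X' y' y (by omega)
      have h5 : (1 : ℝ) ≤ ((y - y' : ℤ) : ℝ) := by exact_mod_cast (by omega : (1 : ℤ) ≤ y - y')
      rw [hv]
      nlinarith [sq_nonneg ((X' : ℝ) - (X' : ℝ))]
    · have h4 := F_spacing h gp X' (y + 1) y' (by omega)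
      have h5 : (1 : ℝ) ≤ ((y' - (y + 1) : ℤ) : ℝ) := by
        exact_mod_cast (by omega : (1 : ℤ) ≤ y' - (y + 1))
      rw [hv] at h4 ⊢
      nlinarith [sq_nonneg ((X' : ℝ) - (X' : ℝ))]
  · have h3 : X' ≤ X - 1 ∨ X + 1 ≤ X' := by omega
    have h4 : (1 : ℝ) ≤ ((X' : ℝ) - (X : ℝ)) ^ 2 := by
      rcases h3 with h3 | h3
      · have : (X' : ℝ) ≤ (X : ℝ) - 1 := by exact_mod_cast h3
        nlinarith
      · have : (X : ℝ) + 1 ≤ (X' : ℝ) := by exact_mod_cast h3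
        nlinarith
    nlinarith [sq_nonneg (F L ρ gp X' y' - (F L ρ gp X y + F L ρ gp X (y + 1)) / 2)]

/-- vertical edges outside the leaf gap have length one -/
theorem F_vert {L : ℤ} {ρ : ℤ → ℤ} (h : Ok L ρ) (gp : ℤ → ℤ) (k y : ℤ) (hy : y ≠ gp k) :
    F L ρ gp (L * k) (y + 1) = F L ρ gp (L * k) y + 1 := by
  rw [F_mul L h.pos, F_mul L h.pos]
  unfold hgt
  push_cast
  split_ifs
  · ring
  · exfalso; omega
  · exfalso; omega
  · ring

/-- the leaf of an up-hanging column (tip row `r = ρ k = gp k` at height `0`) -/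
theorem leaf_up {L : ℤ} {ρ : ℤ → ℤ} (h : Ok L ρ) (gp : ℤ → ℤ) (k r X' y' : ℤ)
    (hρ : ρ k = r) (hg : gp k = r) (e : ℝ) (he0 : 0 ≤ e) (he1 : e ≤ 1 / 8)
    (h1 : ¬ (X' = L * k ∧ y' = r)) :
    1 + 1 / 8 ≤ ((X' : ℝ) - ((L * k : ℤ) : ℝ)) ^ 2 + (F L ρ gp X' y' - (1 + e)) ^ 2 := by
  have hF0 : ∀ z, F L ρ gp (L * k) z = ((z - r : ℤ) : ℝ) + if r < z then 2 else 0 := by
    intro z; rw [F_mul L h.pos, hρ, hg]; rfl
  have hcase : ∀ z, F L ρ gp (L * k) z ≤ 0 ∨ 3 ≤ F L ρ gp (L * k) z := by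
    intro z
    rw [hF0]
    split_ifs with hz
    · right
      have : (1 : ℝ) ≤ ((z - r : ℤ) : ℝ) := by exact_mod_cast (by omega : (1 : ℤ) ≤ z - r)
      linarith
    · left
      have : ((z - r : ℤ) : ℝ) ≤ 0 := by exact_mod_cast (by omega : z - r ≤ 0)
      linarith
  by_cases hX : X' = L * k
  · subst hX
    rw [hF0]
    have hy : y' ≠ r := fun e => h1 ⟨rfl, e⟩
    split_ifs with hz
    · have : (1 : ℝ) ≤ ((y' - r : ℤ) : ℝ) := by exact_mod_cast (by omega : (1 : ℤ) ≤ y' - r)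
      nlinarith
    · have : ((y' - r : ℤ) : ℝ) ≤ -1 := by exact_mod_cast (by omega : y' - r ≤ -1)
      nlinarith
  · by_cases hX1 : X' = L * k + 1 ∨ X' = L * k - 1
    · have h4 : |F L ρ gp X' y' - F L ρ gp (L * k) y'| ≤ 1 / 2 := by
        rcases hX1 with hX1 | hX1
        · rw [hX1]; exact F_step_abs h gp _ _
        · have := F_step_abs h gp (L * k - 1) y'
          rw [sub_add_cancel, abs_sub_comm] at this
          rw [hX1]; exact this
      have h5 : (1 : ℝ) ≤ ((X' : ℝ) - ((L * k : ℤ) : ℝ)) ^ 2 := by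
        rcases hX1 with hX1 | hX1
        · rw [hX1]; push_cast; nlinarith
        · rw [hX1]; push_cast; nlinarith
      have h6 := abs_le.1 h4
      rcases hcase y' with h7 | h7
      · nlinarith [h6.1, h6.2]
      · nlinarith [h6.1, h6.2]
    · have h3 : X' ≤ L * k - 2 ∨ L * k + 2 ≤ X' := by
        have a1 : X' ≠ L * k + 1 := fun e => hX1 (Or.inl e)
        have a2 : X' ≠ L * k - 1 := fun e => hX1 (Or.inr e)
        omega
      have h4 : (4 : ℝ) ≤ ((X' : ℝ) - ((L * k : ℤ) : ℝ)) ^ 2 := by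
        rcases h3 with h3 | h3
        · have : (X' : ℝ) ≤ ((L * k : ℤ) : ℝ) - 2 := by exact_mod_cast h3
          nlinarith
        · have : ((L * k : ℤ) : ℝ) + 2 ≤ (X' : ℝ) := by exact_mod_cast h3
          nlinarith
      nlinarith [sq_nonneg (F L ρ gp X' y' - (1 + e))]

/-- the leaf of a down-hanging column (tip row `r = ρ k = gp k + 1` at height `2`) -/
theorem leaf_down {L : ℤ} {ρ : ℤ → ℤ} (h : Ok L ρ) (gp : ℤ → ℤ) (k r X' y' : ℤ)
    (hρ : ρ k = r) (hg : gp k = r - 1) (e : ℝ) (he0 : 0 ≤ e) (he1 : e ≤ 1 / 8)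
    (h1 : ¬ (X' = L * k ∧ y' = r)) :
    1 + 1 / 8 ≤ ((X' : ℝ) - ((L * k : ℤ) : ℝ)) ^ 2 + (F L ρ gp X' y' - (1 + e)) ^ 2 := by
  have hF0 : ∀ z, F L ρ gp (L * k) z = ((z - r : ℤ) : ℝ) + if r - 1 < z then 2 else 0 := by
    intro z; rw [F_mul L h.pos, hρ, hg]; rfl
  have hcase : ∀ z, F L ρ gp (L * k) z ≤ -1 ∨ 2 ≤ F L ρ gp (L * k) z := by
    intro z
    rw [hF0]
    split_ifs with hz
    · right
      have : (0 : ℝ) ≤ ((z - r : ℤ) : ℝ) := by exact_mod_cast (by omega : (0 : ℤ) ≤ z - r)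
      linarith
    · left
      have : ((z - r : ℤ) : ℝ) ≤ -1 := by exact_mod_cast (by omega : z - r ≤ -1)
      linarith
  by_cases hX : X' = L * k
  · subst hX
    rw [hF0]
    have hy : y' ≠ r := fun e => h1 ⟨rfl, e⟩
    split_ifs with hz
    · have : (1 : ℝ) ≤ ((y' - r : ℤ) : ℝ) := by exact_mod_cast (by omega : (1 : ℤ) ≤ y' - r)
      nlinarith
    · have : ((y' - r : ℤ) : ℝ) ≤ -1 := by exact_mod_cast (by omega : y' - r ≤ -1)
      nlinarith
  · by_cases hX1 : X' = L * k + 1 ∨ X' = L * k - 1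
    · have h4 : |F L ρ gp X' y' - F L ρ gp (L * k) y'| ≤ 1 / 2 := by
        rcases hX1 with hX1 | hX1
        · rw [hX1]; exact F_step_abs h gp _ _
        · have := F_step_abs h gp (L * k - 1) y'
          rw [sub_add_cancel, abs_sub_comm] at this
          rw [hX1]; exact this
      have h5 : (1 : ℝ) ≤ ((X' : ℝ) - ((L * k : ℤ) : ℝ)) ^ 2 := by
        rcases hX1 with hX1 | hX1
        · rw [hX1]; push_cast; nlinarith
        · rw [hX1]; push_cast; nlinarith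
      have h6 := abs_le.1 h4
      rcases hcase y' with h7 | h7
      · nlinarith [h6.1, h6.2]
      · nlinarith [h6.1, h6.2]
    · have h3 : X' ≤ L * k - 2 ∨ L * k + 2 ≤ X' := by
        have a1 : X' ≠ L * k + 1 := fun e => hX1 (Or.inl e)
        have a2 : X' ≠ L * k - 1 := fun e => hX1 (Or.inr e)
        omega
      have h4 : (4 : ℝ) ≤ ((X' : ℝ) - ((L * k : ℤ) : ℝ)) ^ 2 := by
        rcases h3 with h3 | h3
        · have : (X' : ℝ) ≤ ((L * k : ℤ) : ℝ) - 2 := by exact_mod_cast h3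
          nlinarith
        · have : ((L * k : ℤ) : ℝ) + 2 ≤ (X' : ℝ) := by exact_mod_cast h3
          nlinarith
      nlinarith [sq_nonneg (F L ρ gp X' y' - (1 + e))]

end Pool.H50.RNC
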