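import Pool.Agent.RNB.Spots
import Pool.Agent.H50.RNC.Geo

/-! PROJECT RN (S11118): the drawing of a grid network, for arbitrary multiplicities
(independent of flows and levels). -/

set_option autoImplicit false

namespace Pool.H50.RNC

open Finset

/-- the data of a drawing: columns `-W .. W`, rows `0 .. M-1`, leaf columns multiples of `L` -/
structure Frame where
  /-- half width -/
  W : ℕ
  /-- number of rows -/
  M : ℕ
  /-- spacing of the leaf columns -/
  L : ℕ
  /-- there is a leaf in column `x` -/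
  lf : ℤ → Prop
  /-- the row of its hub -/
  tip : ℤ → ℤ
  /-- the leaf hangs above (`true`) or below (`false`) its hub -/
  up : ℤ → Bool
  /-- the leaf of column `x` is at `(x, 1 + η x)` -/
  η : ℤ → ℝ
  M_pos : 1 ≤ M
  L_ge : 2 * (M + 2) ≤ L
  η_nonneg : ∀ x, lf x → 0 ≤ η x
  η_le : ∀ x, lf x → η x ≤ 1 / 100
  lf_dvd : ∀ x, lf x → (L : ℤ) ∣ x
  tip_range : ∀ x, lf x → 0 ≤ tip x ∧ tip x < M

namespace Frame

variable (N : Frame)

instance : NeZero N.M := ⟨by have := N.M_pos; omega⟩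

/-- columns -/
abbrev Col : Type := Fin (2 * N.W + 1)

/-- hubs -/
abbrev Hub : Type := N.Col × Fin N.M

/-- edges: `false` to the right, `true` upwards (cyclic at the border) -/
abbrev Edge : Type := N.Hub × Bool

/-- the column number as an integer in `[-W, W]` -/
def xc (i : N.Col) : ℤ := (i.val : ℤ) - N.W

/-- leaves -/
abbrev Leaf : Type := {i : N.Col // N.lf (N.xc i)}

noncomputable instance : Fintype N.Leaf := Fintype.ofFinite _

/-- the tail of an edge -/
def tl (e : N.Edge) : N.Hub := e.1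

/-- the head of an edge -/
def hd (e : N.Edge) : N.Hub := bif e.2 then (e.1.1, e.1.2 + 1) else (e.1.1 + 1, e.1.2)

/-- the hub of a leaf -/
def lt (g : N.Leaf) : N.Hub := (g.1, ⟨(N.tip (N.xc g.1)).toNat, by
  have := N.tip_range _ g.2
  omega⟩)

theorem xc_inj : Function.Injective N.xc := by
  intro i j h
  unfold xc at h
  exact Fin.ext (by omega)

theorem xc_succ (i : N.Col) (h : N.xc i + 1 ≤ N.W) : N.xc (i + 1) = N.xc i + 1 := by
  have hi := i.isLt
  unfold xc at *
  have h1 : i.val + 1 < 2 * N.W + 1 := by omega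
  have h2 : (i + 1).val = i.val + 1 := by
    rw [Fin.val_add]
    have h3 : ((1 : Fin (2 * N.W + 1)) : ℕ) = 1 % (2 * N.W + 1) := rfl
    rw [h3, Nat.add_mod_mod, Nat.mod_eq_of_lt h1]
  rw [h2]; push_cast; ring

theorem row_succ (y : Fin N.M) (h : y.val + 1 < N.M) : (y + 1).val = y.val + 1 := by
  rw [Fin.val_add_one_of_lt' h]

theorem norm_sq_pt (a b c d : ℝ) :
    ‖(!₂[a, b] : RNB.E2) - !₂[c, d]‖ ^ 2 = (a - c) ^ 2 + (b - d) ^ 2 := by
  rw [EuclideanSpace.norm_sq_eq, Fin.sum_univ_two]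
  simp

theorem norm_sq_mid (a b c d e f : ℝ) :
    ‖(!₂[a, b] : RNB.E2) - (1 / 2 : ℝ) • (!₂[c, d] + !₂[e, f])‖ ^ 2 =
      (a - (c + e) / 2) ^ 2 + (b - (d + f) / 2) ^ 2 := by
  rw [EuclideanSpace.norm_sq_eq, Fin.sum_univ_two]
  simp
  ring

/-- lower row of the leaf gap in column `x` -/
noncomputable def gp (x : ℤ) : ℤ := if N.up x then N.tip x else N.tip x - 1

open Classical in
/-- offset of the rows in the leaf column `L * k` -/
noncomputable def rho (k : ℤ) : ℤ := if N.lf (N.L * k) then N.tip (N.L * k) else 0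

open Classical in
/-- lower row of the leaf gap in the leaf column `L * k` -/
noncomputable def gap (k : ℤ) : ℤ := if N.lf (N.L * k) then N.gp (N.L * k) else N.M

theorem ok : Ok (N.L : ℤ) N.rho := by
  have hM := N.M_pos
  have hL := N.L_ge
  have h0 : ∀ k, 0 ≤ N.rho k ∧ N.rho k < N.M := by
    intro k
    unfold rho
    split_ifs with h
    · exact N.tip_range _ h
    · omega
  constructor
  · omega
  · intro k
    have h1 := h0 k
    have h2 := h0 (k + 1)
    have h3 : |N.rho (k + 1) - N.rho k| ≤ N.M := by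
      rw [abs_le]; omega
    omega

/-- height of hub `(x, y)` -/
noncomputable def ht (x y : ℤ) : ℝ := F N.L N.rho N.gap x y

/-- the position of a hub -/
noncomputable def pos (v : N.Hub) : RNB.E2 := !₂[(N.xc v.1 : ℝ), N.ht (N.xc v.1) v.2.val]

/-- the position of a leaf -/
noncomputable def lpos (g : N.Leaf) : RNB.E2 := !₂[(N.xc g.1 : ℝ), 1 + N.η (N.xc g.1)]

theorem hub_ne (v w : N.Hub) (h : v ≠ w) : ¬ (N.xc v.1 = N.xc w.1 ∧ (v.2.val : ℤ) = w.2.val) := by
  rintro ⟨h1, h2⟩
  exact h (Prod.ext (N.xc_inj h1) (Fin.ext (by exact_mod_cast h2)))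

theorem vert_len (x y : ℤ) (hd : (N.L : ℤ) ∣ x) (hy : y + 1 < N.M) (hg : N.lf x → y ≠ N.gp x) :
    N.ht x (y + 1) = N.ht x y + 1 := by
  obtain ⟨k, hk⟩ := hd
  subst hk
  unfold ht
  apply F_vert N.ok
  unfold gap
  split_ifs with h1
  · exact hg h1
  · omega

theorem leaf_ht (x : ℤ) (hx : N.lf x) :
    (N.up x = true → N.ht x (N.tip x) = 0) ∧ (N.up x = false → N.ht x (N.tip x) = 2) := by
  obtain ⟨k, hk⟩ := N.lf_dvd _ hx
  subst hk
  unfold ht
  rw [F_mul _ N.ok.pos]
  have h1 : N.rho k = N.tip (N.L * k) := by unfold rho; rw [if_pos hx]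
  rw [h1]
  constructor
  · intro h2
    have h3 : N.gap k = N.tip (N.L * k) := by unfold gap gp; rw [if_pos hx, if_pos h2]
    rw [h3]; simp [hgt]
  · intro h2
    have h3 : N.gap k = N.tip (N.L * k) - 1 := by
      unfold gap gp; rw [if_pos hx, if_neg (by rw [h2]; simp)]
    rw [h3]; simp [hgt]

theorem g2 (g : N.Leaf) (v : N.Hub) (hv : v ≠ N.lt g) : 1 + 1 / 8 ≤ ‖N.pos v - N.lpos g‖ ^ 2 := by
  obtain ⟨i, hx⟩ := g
  have n1 := N.hub_ne _ _ hv
  obtain ⟨k, hk⟩ := N.lf_dvd _ hx
  have ht0 := N.tip_range _ hx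
  have hη0 := N.η_nonneg (N.xc i) hx
  have hη1 := N.η_le (N.xc i) hx
  simp only [lt] at n1
  rw [Int.toNat_of_nonneg ht0.1] at n1
  unfold pos lpos
  rw [norm_sq_pt]
  simp only
  have h1 : N.rho k = N.tip (N.L * k) := by unfold rho; rw [← hk, if_pos hx]
  rw [hk] at n1 hη0 hη1 ⊢
  unfold ht
  cases hu : N.up (N.L * k)
  · have h3 : N.gap k = N.tip (N.L * k) - 1 := by
      unfold gap gp; rw [← hk, if_pos hx, if_neg (by rw [hk, hu]; simp)]
    exact leaf_down N.ok N.gap k _ _ _ h1 h3 _ hη0 (by linarith) n1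
  · have h3 : N.gap k = N.tip (N.L * k) := by
      unfold gap gp; rw [← hk, if_pos hx, if_pos (by rw [hk, hu])]
    exact leaf_up N.ok N.gap k _ _ _ h1 h3 _ hη0 (by linarith) n1

theorem g2_tip (g : N.Leaf) : |‖N.pos (N.lt g) - N.lpos g‖ ^ 2 - 1| ≤ 1 / 32 := by
  obtain ⟨i, hx⟩ := g
  have ht0 := N.tip_range _ hx
  have hη0 := N.η_nonneg (N.xc i) hx
  have hη1 := N.η_le (N.xc i) hx
  have hl := N.leaf_ht _ hx
  unfold pos lpos
  rw [norm_sq_pt]
  simp only [lt]
  rw [Int.toNat_of_nonneg ht0.1]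
  cases hu : N.up (N.xc i)
  · rw [hl.2 hu, abs_le]
    constructor <;> nlinarith
  · rw [hl.1 hu, abs_le]
    constructor <;> nlinarith

theorem lt_inj : Function.Injective N.lt := by
  intro g g' h
  exact Subtype.ext (congrArg Prod.fst h)

/-- THE DRAWING, for arbitrary multiplicities: horizontal edges with items are inside, vertical
edges with items are inside, in columns divisible by `L`, and not in the gap of the leaf. -/
theorem drawn (mult : N.Edge → ℕ)
    (hH : ∀ i y, 0 < mult ((i, y), false) → N.xc i + 1 ≤ N.W)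
    (hV : ∀ i y, 0 < mult ((i, y), true) → (y.val : ℤ) + 1 < N.M ∧ (N.L : ℤ) ∣ N.xc i ∧
      (N.lf (N.xc i) → (y.val : ℤ) ≠ N.gp (N.xc i))) :
    RNB.Drawn N.tl N.hd N.lt N.lpos mult N.pos := by
  have hgen : ∀ e : N.Edge, 0 < mult e →
      (1 ≤ ‖N.pos (N.hd e) - N.pos (N.tl e)‖ ^ 2 ∧
        ‖N.pos (N.hd e) - N.pos (N.tl e)‖ ^ 2 ≤ 5 / 4) ∧
      ∀ v, v ≠ N.tl e → v ≠ N.hd e →
        ‖N.pos (N.hd e) - N.pos (N.tl e)‖ ^ 2 / 4 + 1 / 2 ≤
          ‖N.pos v - midpoint ℝ (N.pos (N.tl e)) (N.pos (N.hd e))‖ ^ 2 := by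
    rintro ⟨⟨i, y⟩, b⟩ he
    have hinv : (⅟2 : ℝ) = 1 / 2 := by norm_num
    cases b
    · have h3 := N.xc_succ i (hH i y he)
      have h4 := abs_le.1 (F_step_abs N.ok N.gap (N.xc i) y.val)
      refine ⟨?_, fun v h1 h2 => ?_⟩
      · simp only [pos, hd, tl, cond_false]
        rw [norm_sq_pt, h3]
        unfold ht
        push_cast
        constructor <;> nlinarith [h4.1, h4.2]
      · have n1 := N.hub_ne _ _ h1
        have n2 := N.hub_ne _ _ h2
        simp only [hd, tl, cond_false] at n1 n2 ⊢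
        rw [h3] at n2
        have h5 := gabriel_h N.ok N.gap (N.xc i) y.val (N.xc v.1) v.2.val n1 n2
        rw [midpoint_eq_smul_add, hinv]
        unfold pos
        rw [norm_sq_pt, norm_sq_mid]
        simp only
        rw [h3]
        unfold ht
        push_cast
        refine le_trans (le_of_eq ?_) (h5.trans (le_of_eq ?_)) <;> ring
    · obtain ⟨hy, hL, hg⟩ := hV i y he
      have h3 := N.row_succ y (by omega)
      have hv := N.vert_len (N.xc i) y.val hL hy hg
      refine ⟨?_, fun v h1 h2 => ?_⟩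
      · simp only [pos, hd, tl, cond_true]
        rw [norm_sq_pt, h3]
        push_cast
        rw [hv]
        constructor <;> nlinarith
      · have n1 := N.hub_ne _ _ h1
        have n2 := N.hub_ne _ _ h2
        simp only [hd, tl, cond_true] at n1 n2 ⊢
        rw [h3] at n2
        push_cast at n2
        have h5 := gabriel_v N.ok N.gap (N.xc i) y.val (N.xc v.1) v.2.val hv n1 n2
        rw [midpoint_eq_smul_add, hinv]
        unfold pos
        rw [norm_sq_pt, norm_sq_mid]
        simp only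
        rw [h3]
        push_cast
        have hv' : N.ht (N.xc i) ((y.val : ℤ) + 1) = N.ht (N.xc i) y.val + 1 := hv
        unfold ht at hv' ⊢
        rw [hv'] at h5 ⊢
        refine le_trans (le_of_eq ?_) (h5.trans (le_of_eq ?_)) <;> ring
  exact
    { len_ge := fun e he => (hgen e he).1.1
      len_le := fun e he => (hgen e he).1.2
      gap := fun e v he h1 h2 => (hgen e he).2 v h1 h2
      leaf_gap := fun g v h => N.g2 g v h
      leaf_ge := fun g => by
        have := (abs_le.1 (N.g2_tip g)).1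
        linarith
      leaf_le := fun g => by
        have := (abs_le.1 (N.g2_tip g)).2
        linarith
      tip_inj := N.lt_inj }

/-- tilted height of a leaf -/
theorem height_eq (c : ℝ) (g : N.Leaf) :
    inner ℝ (N.lpos g) (!₂[(1 : ℝ), - c] : RNB.E2) =
      (N.xc g.1 : ℝ) - c * N.η (N.xc g.1) - c := by
  simp only [lpos, PiLp.inner_apply, Fin.sum_univ_two]
  simp
  ring

end Frame

end Pool.H50.RNC
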