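import Pool.Agent.H50.RNC.Net

/-! PROJECT RN (S11118), plan C, module B4: positions of hubs and leaves of a `GridNet`. -/

set_option autoImplicit false

namespace Pool.H50.RNC

open Finset RNB

variable {D : ℕ}

/-- the plane -/
abbrev E2 := EuclideanSpace ℝ (Fin 2)

theorem norm_sq_pt (a b c d : ℝ) : ‖(!₂[a, b] : E2) - !₂[c, d]‖ ^ 2 = (a - c) ^ 2 + (b - d) ^ 2 := by
  rw [EuclideanSpace.norm_sq_eq, Fin.sum_univ_two]
  simp

theorem norm_sq_mid (a b c d e f : ℝ) :
    ‖(!₂[a, b] : E2) - (1 / 2 : ℝ) • (!₂[c, d] + !₂[e, f])‖ ^ 2 =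
      (a - (c + e) / 2) ^ 2 + (b - (d + f) / 2) ^ 2 := by
  rw [EuclideanSpace.norm_sq_eq, Fin.sum_univ_two]
  simp
  ring

open Classical in
/-- offset of the rows in the leaf column `L * k` -/
noncomputable def rho (N : GridNet D) (k : ℤ) : ℤ := if N.lf (N.L * k) then N.tip (N.L * k) else 0

open Classical in
/-- lower row of the leaf gap in the leaf column `L * k` -/
noncomputable def gap (N : GridNet D) (k : ℤ) : ℤ :=
  if N.lf (N.L * k) then (if N.up (N.L * k) then N.tip (N.L * k) else N.tip (N.L * k) - 1) else N.M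

theorem ok (N : GridNet D) : Ok (N.L : ℤ) (rho N) := by
  have hM := N.M_pos
  have hL := N.L_ge
  have h0 : ∀ k, 0 ≤ rho N k ∧ rho N k < N.M := by
    intro k
    unfold rho
    split_ifs with h
    · exact N.tip_range _ h
    · omega
  constructor
  · omega
  · intro k
    have h1 := h0 k
    have h2 := h0 (k + 1)
    have h3 : |rho N (k + 1) - rho N k| ≤ N.M := by
      rw [abs_le]; omega
    omega

/-- height of hub `(x, y)` -/
noncomputable def ht (N : GridNet D) (x y : ℤ) : ℝ := F N.L (rho N) (gap N) x y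

/-- the position of a hub -/
noncomputable def pos (N : GridNet D) (v : Hub N) : E2 :=
  !₂[(xc N v.1 : ℝ), ht N (xc N v.1) v.2.val]

/-- the position of a leaf -/
noncomputable def lpos (N : GridNet D) (g : Leaf N) : E2 :=
  !₂[(xc N g.1 : ℝ), 1 + N.η (xc N g.1)]

theorem hub_ne (N : GridNet D) (v w : Hub N) (h : v ≠ w) :
    ¬ (xc N v.1 = xc N w.1 ∧ (v.2.val : ℤ) = w.2.val) := by
  rintro ⟨h1, h2⟩
  exact h (Prod.ext (xc_inj N h1) (Fin.ext (by exact_mod_cast h2)))

theorem vert_len (N : GridNet D) (τ : ℕ) (x y : ℤ) (h : N.FV τ x y ≠ 0) :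
    ht N x (y + 1) = ht N x y + 1 := by
  obtain ⟨k, hk⟩ := N.FV_dvd _ _ _ h
  subst hk
  unfold ht
  apply F_vert (ok N)
  unfold gap
  split_ifs with h1 h2
  · have := N.FV_gap _ _ _ h1 h
    rw [if_pos h2] at this
    exact this
  · have := N.FV_gap _ _ _ h1 h
    rw [if_neg h2] at this
    exact this
  · have := N.FV_supp _ _ _ h
    omega

/-- (g1): Gabriel condition -/
theorem g1 (N : GridNet D) (τ : ℕ) (e : Edge N) (he : fl N τ e ≠ 0) (v : Hub N)
    (h1 : v ≠ e.1) (h2 : v ≠ hd N e) :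
    ‖pos N e.1 - pos N (hd N e)‖ ^ 2 / 4 + 1 / 2 ≤
      ‖pos N v - (1 / 2 : ℝ) • (pos N e.1 + pos N (hd N e))‖ ^ 2 := by
  have hh := hd_of_fl N τ e he
  have n1 := hub_ne N _ _ h1
  have n2 := hub_ne N _ _ h2
  obtain ⟨⟨i, y⟩, b⟩ := e
  cases b
  · have h3 := hh.1 rfl
    simp only at h3 n1 n2 ⊢
    rw [h3.1, h3.2] at n2
    have h4 := gabriel_h (ok N) (gap N) (xc N i) y.val (xc N v.1) v.2.val n1 n2
    unfold pos
    rw [norm_sq_pt, norm_sq_mid]
    simp only
    rw [h3.1, h3.2]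
    unfold ht
    push_cast
    refine le_trans (le_of_eq ?_) (h4.trans (le_of_eq ?_)) <;> ring
  · have h3 := hh.2 rfl
    simp only at h3 n1 n2 ⊢
    rw [h3.1, h3.2] at n2
    push_cast at n2
    have hv := vert_len N τ (xc N i) y.val (by simpa [fl] using he)
    have h4 := gabriel_v (ok N) (gap N) (xc N i) y.val (xc N v.1) v.2.val hv n1 n2
    unfold pos
    rw [norm_sq_pt, norm_sq_mid]
    simp only
    rw [h3.1, h3.2]
    push_cast
    have hv' : ht N (xc N i) ((y.val : ℤ) + 1) = ht N (xc N i) y.val + 1 := hv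
    unfold ht at hv' ⊢
    rw [hv'] at h4 ⊢
    refine le_trans (le_of_eq ?_) (h4.trans (le_of_eq ?_)) <;> ring

/-- (g0): lengths of the edges -/
theorem g0 (N : GridNet D) (τ : ℕ) (e : Edge N) (he : fl N τ e ≠ 0) :
    1 ≤ ‖pos N e.1 - pos N (hd N e)‖ ^ 2 ∧ ‖pos N e.1 - pos N (hd N e)‖ ^ 2 ≤ 5 / 4 := by
  have hh := hd_of_fl N τ e he
  obtain ⟨⟨i, y⟩, b⟩ := e
  cases b
  · have h3 := hh.1 rfl
    simp only at h3 ⊢
    have h4 := abs_le.1 (F_step_abs (ok N) (gap N) (xc N i) y.val)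
    unfold pos
    rw [norm_sq_pt]
    simp only
    rw [h3.1, h3.2]
    unfold ht
    push_cast
    constructor <;> nlinarith [h4.1, h4.2]
  · have h3 := hh.2 rfl
    simp only at h3 ⊢
    have hv := vert_len N τ (xc N i) y.val (by simpa [fl] using he)
    unfold pos
    rw [norm_sq_pt]
    simp only
    rw [h3.1, h3.2]
    push_cast
    rw [hv]
    constructor <;> nlinarith

theorem leaf_ht (N : GridNet D) (x : ℤ) (hx : N.lf x) :
    (N.up x = true → ht N x (N.tip x) = 0) ∧ (N.up x = false → ht N x (N.tip x) = 2) := by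
  obtain ⟨k, hk⟩ := N.lf_dvd _ hx
  subst hk
  unfold ht
  rw [F_mul _ (ok N).pos]
  have h1 : rho N k = N.tip (N.L * k) := by unfold rho; rw [if_pos hx]
  rw [h1]
  constructor
  · intro h2
    have h3 : gap N k = N.tip (N.L * k) := by unfold gap; rw [if_pos hx, if_pos h2]
    rw [h3]; simp [hgt]
  · intro h2
    have h3 : gap N k = N.tip (N.L * k) - 1 := by
      unfold gap; rw [if_pos hx, if_neg (by rw [h2]; simp)]
    rw [h3]; simp [hgt]

/-- (g2): the leaf is far away from all hubs except its own -/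
theorem g2 (N : GridNet D) (g : Leaf N) (v : Hub N) (hv : v ≠ (toLevel N).tip g) :
    1 + 1 / 8 ≤ ‖pos N v - lpos N g‖ ^ 2 := by
  obtain ⟨i, hx⟩ := g
  have n1 := hub_ne N _ _ hv
  obtain ⟨k, hk⟩ := N.lf_dvd _ hx
  have ht0 := N.tip_range _ hx
  have hη0 := N.η_nonneg (xc N i)
  have hη1 := N.η_le (xc N i)
  simp only [toLevel] at n1
  rw [Int.toNat_of_nonneg ht0.1] at n1
  unfold pos lpos
  rw [norm_sq_pt]
  simp only
  have h1 : rho N k = N.tip (N.L * k) := by unfold rho; rw [← hk, if_pos hx]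
  rw [hk] at n1 hη0 hη1 ⊢
  unfold ht
  cases hu : N.up (N.L * k)
  · have h3 : gap N k = N.tip (N.L * k) - 1 := by
      unfold gap; rw [← hk, if_pos hx, if_neg (by rw [hk, hu]; simp)]
    exact leaf_down (ok N) (gap N) k _ _ _ h1 h3 _ hη0 (by linarith) n1
  · have h3 : gap N k = N.tip (N.L * k) := by
      unfold gap; rw [← hk, if_pos hx, if_pos (by rw [hk, hu])]
    exact leaf_up (ok N) (gap N) k _ _ _ h1 h3 _ hη0 (by linarith) n1

/-- (g2'): distance of the leaf to its hub -/
theorem g2_tip (N : GridNet D) (g : Leaf N) :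
    |‖pos N ((toLevel N).tip g) - lpos N g‖ ^ 2 - 1| ≤ 1 / 32 := by
  obtain ⟨i, hx⟩ := g
  have ht0 := N.tip_range _ hx
  have hη0 := N.η_nonneg (xc N i)
  have hη1 := N.η_le (xc N i)
  have hl := leaf_ht N _ hx
  unfold pos lpos
  rw [norm_sq_pt]
  simp only [toLevel]
  rw [Int.toNat_of_nonneg ht0.1]
  cases hu : N.up (xc N i)
  · rw [hl.2 hu, abs_le]
    constructor <;> nlinarith
  · rw [hl.1 hu, abs_le]
    constructor <;> nlinarith

theorem tip_inj (N : GridNet D) : Function.Injective (toLevel N).tip := by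
  intro g g' h
  exact Subtype.ext (congrArg Prod.fst h)

/-- total number of copies of an edge -/
theorem mult_le (N : GridNet D) (e : Edge N) : (∑ τ : Fin D, |(toLevel N).F τ e|) ≤ N.Q := by
  obtain ⟨⟨i, y⟩, b⟩ := e
  cases b
  · have h1 := N.FH_bound (xc N i) y.val
    refine le_trans (le_of_eq ?_) h1
    rw [Finset.sum_range]
    refine Finset.sum_congr rfl fun τ _ => ?_
    simp only [toLevel, fl, cond_false]
    exact abs_of_nonneg (N.H_nonneg _ _ _ τ.isLt)
  · have h1 := N.FV_bound (xc N i) y.val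
    refine le_trans (le_of_eq ?_) h1
    rw [Finset.sum_range]
    refine Finset.sum_congr rfl fun τ _ => ?_
    simp only [toLevel, fl, cond_true]

theorem card_hub (N : GridNet D) : Fintype.card (Hub N) = (2 * N.W + 1) * N.M := by
  simp [Hub, Col]

theorem card_edge (N : GridNet D) : Fintype.card (Edge N) = (2 * N.W + 1) * N.M * 2 := by
  simp [Edge, Hub, Col]

theorem card_leaf (N : GridNet D) : Fintype.card (Leaf N) ≤ 2 * N.W + 1 := by
  have h := Fintype.card_le_of_injective (fun g : Leaf N => g.1) Subtype.val_injective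
  exact h.trans (le_of_eq (Fintype.card_fin _))

/-- the height of a leaf is its first coordinate, tilted -/
theorem height_eq (N : GridNet D) (τ : Fin D) (g : Leaf N) :
    inner ℝ (lpos N g) (!₂[(1 : ℝ), - N.c τ] : E2) = (toLevel N).h τ g - N.c τ := by
  simp only [lpos, toLevel, PiLp.inner_apply, Fin.sum_univ_two]
  simp
  ring

end Pool.H50.RNC
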