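import Pool.Agent.RNB.Spots
import Pool.Agent.H50.RNC.Pos

/-! PROJECT RN (S11118), plan C, module C4: a `GridNet` gives a drawn `LevelNet`. -/

set_option autoImplicit false

namespace Pool.H50.RNC

open Finset RNB

variable {D : ℕ}

/-- slope of level `τ` as a point of the plane -/
noncomputable def th (N : GridNet D) (τ : Fin D) : RNB.E2 := !₂[(1 : ℝ), - N.c τ]

/-- multiplicities of the edges -/
noncomputable def mu (N : GridNet D) (e : Edge N) : ℕ := (∑ τ : Fin D, |(toLevel N).F τ e|).toNat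

theorem mu_pos (N : GridNet D) (e : Edge N) (h : 0 < mu N e) : ∃ τ : Fin D, fl N τ e ≠ 0 := by
  by_contra hc
  push Not at hc
  have h1 : (∑ τ : Fin D, |(toLevel N).F τ e|) = 0 :=
    Finset.sum_eq_zero fun τ _ => by
      have : (toLevel N).F τ e = 0 := hc τ
      rw [this, abs_zero]
  unfold mu at h
  rw [h1] at h
  simp at h

theorem mu_le (N : GridNet D) (e : Edge N) : mu N e ≤ N.Q := by
  have := mult_le N e
  unfold mu
  omega

theorem drawn (N : GridNet D) :
    Drawn (toLevel N).tail (toLevel N).head (toLevel N).tip (lpos N) (mu N) (pos N) where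
  len_ge e he := by
    obtain ⟨τ, hτ⟩ := mu_pos N e he
    rw [norm_sub_rev]
    exact (g0 N τ e hτ).1
  len_le e he := by
    obtain ⟨τ, hτ⟩ := mu_pos N e he
    rw [norm_sub_rev]
    exact (g0 N τ e hτ).2
  gap e v he h1 h2 := by
    obtain ⟨τ, hτ⟩ := mu_pos N e he
    have h3 := g1 N τ e hτ v h1 h2
    rw [norm_sub_rev (pos N ((toLevel N).head e))]
    rw [midpoint_eq_smul_add]
    have h4 : (⅟2 : ℝ) = 1 / 2 := by norm_num
    rw [h4]
    exact h3
  leaf_gap g v h := g2 N g v h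
  leaf_ge g := by
    have := (abs_le.1 (g2_tip N g)).1
    linarith
  leaf_le g := by
    have := (abs_le.1 (g2_tip N g)).2
    linarith
  tip_inj := tip_inj N

theorem heights (N : GridNet D) (τ : Fin D) (g : Leaf N) :
    inner ℝ (lpos N g) (th N τ) = (toLevel N).h τ g + (- N.c τ) := by
  have := height_eq N τ g
  rw [← sub_eq_add_neg]
  exact this

end Pool.H50.RNC

/-- module C4 -/
theorem RNB.level_of_grid {D : ℕ} (N : RNB.GridNet D) :
    ∃ (V E G : Type) (_ : Fintype V) (_ : Fintype E) (_ : Fintype G) (_ : DecidableEq V)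
      (LN : RNB.LevelNet V E G D) (b : G → RNB.E2) (th : Fin D → RNB.E2) (ka : Fin D → ℝ)
      (P : V → RNB.E2),
      (∀ τ g, inner ℝ (b g) (th τ) = LN.h τ g + ka τ) ∧
      RNB.Drawn LN.tail LN.head LN.tip b (fun e => (∑ τ, |LN.F τ e|).toNat) P ∧
      (∀ e, (∑ τ, |LN.F τ e|).toNat ≤ N.Q) ∧
      Fintype.card E = (2 * N.W + 1) * N.M * 2 ∧ Fintype.card G ≤ 2 * N.W + 1 :=
  ⟨Pool.H50.RNC.Hub N, Pool.H50.RNC.Edge N, Pool.H50.RNC.Leaf N, inferInstance, inferInstance,
    inferInstance, inferInstance, Pool.H50.RNC.toLevel N, Pool.H50.RNC.lpos N, Pool.H50.RNC.th N,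
    fun τ => - N.c τ, Pool.H50.RNC.pos N, Pool.H50.RNC.heights N, Pool.H50.RNC.drawn N,
    Pool.H50.RNC.mu_le N, Pool.H50.RNC.card_edge N, Pool.H50.RNC.card_leaf N⟩

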