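import Pool.Agent.H60.RNB.Real
import Pool.Agent.RNB.OfLevel
import Pool.Agent.H50.RNC.Level

/-! PROJECT RN (S11118), plan C: glue C1 + C2 + C4. -/

set_option autoImplicit false

open RNB in
/-- every `GridNet D` gives an instance with `2 ^ D` visible sets and few points -/
theorem RNB.H12 (D : ℕ) (N : RNB.GridNet D) :
    ∃ (ι κ : Type) (_ : Fintype ι) (_ : Fintype κ),
      Nonempty (H87RN.Inst ι κ (Fin D → Bool)) ∧ Fintype.card ι ≤ Fintype.card κ ∧
        Fintype.card κ ≤ (2 * N.W + 1) * N.M * 2 * N.Q + (2 * N.W + 1) := by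
  obtain ⟨V, E, G, iV, iE, iG, dV, LN, b, th, ka, P, hth, dr, hQ, hE, hG⟩ := level_of_grid N
  obtain ⟨sd⟩ := spots_of_level LN b th ka hth
  obtain ⟨h1, h2⟩ := realise P dr sd
  refine ⟨_, _, inferInstance, inferInstance, h1, h2, ?_⟩
  rw [Fintype.card_sum, Fintype.card_sigma]
  have h3 : (∑ e : E, Fintype.card (Fin (∑ τ, |LN.F τ e|).toNat)) ≤ ∑ _e : E, N.Q :=
    Finset.sum_le_sum fun e _ => by rw [Fintype.card_fin]; exact hQ e
  rw [Finset.sum_const, smul_eq_mul, Finset.card_univ, hE] at h3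
  omega
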