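import Pool.Agent.RNB.Defs
import Pool.Agent.H50.RNC.Geo

/-! PROJECT RN (S11118), plan C, module B4: a `GridNet` gives a `LevelNet` with hubs drawn in the plane. -/

set_option autoImplicit false

namespace Pool.H50.RNC

open Finset RNB

variable {D : ℕ}

/-- the type of columns -/
abbrev Col (N : GridNet D) : Type := Fin (2 * N.W + 1)

/-- the column number as an integer in `[-W, W]` -/
def xc (N : GridNet D) (i : Col N) : ℤ := (i.val : ℤ) - N.W

theorem xc_inj (N : GridNet D) : Function.Injective (xc N) := by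
  intro i j h
  unfold xc at h
  exact Fin.ext (by omega)

theorem xc_range (N : GridNet D) (i : Col N) : -(N.W : ℤ) ≤ xc N i ∧ xc N i ≤ N.W := by
  have := i.isLt
  unfold xc
  omega

theorem xc_succ (N : GridNet D) (i : Col N) (h : xc N i + 1 ≤ N.W) : xc N (i + 1) = xc N i + 1 := by
  have hi := i.isLt
  unfold xc at *
  have h1 : i.val + 1 < 2 * N.W + 1 := by omega
  have h2 : (i + 1).val = i.val + 1 := by
    rw [Fin.val_add]
    have h3 : ((1 : Fin (2 * N.W + 1)) : ℕ) = 1 % (2 * N.W + 1) := rfl
    rw [h3, Nat.add_mod_mod, Nat.mod_eq_of_lt h1]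
  rw [h2]; push_cast; ring

theorem xc_pred (N : GridNet D) (i : Col N) (h : -(N.W : ℤ) + 1 ≤ xc N i) :
    xc N (i - 1) = xc N i - 1 := by
  have h1 : xc N ((i - 1) + 1) = xc N (i - 1) + 1 := by
    apply xc_succ
    by_contra hc
    have h2 := xc_range N (i - 1)
    have h3 : xc N (i - 1) = N.W := by omega
    -- then `i = 0`
    have h4 : (i - 1).val = 2 * N.W := by unfold xc at h3; omega
    have h5 : (i - 1 + 1).val = ((i - 1).val + 1 % (2 * N.W + 1)) % (2 * N.W + 1) := by
      rw [Fin.val_add]; rfl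
    rw [h4, Nat.add_mod_mod, Nat.mod_self, sub_add_cancel] at h5
    unfold xc at h
    omega
  rw [sub_add_cancel] at h1
  omega

theorem xc_pred_zero (N : GridNet D) (i : Col N) (h : xc N i = -(N.W : ℤ)) :
    xc N (i - 1) = N.W := by
  have h0 : i.val = 0 := by unfold xc at h; omega
  have h1 : i = 0 := Fin.ext (by simpa using h0)
  subst h1
  have h2 : (0 - 1 : Fin (2 * N.W + 1)).val = 2 * N.W := by
    rw [zero_sub]
    rw [Fin.val_neg']
    have h3 : ((1 : Fin (2 * N.W + 1)) : ℕ) = 1 % (2 * N.W + 1) := rfl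
    rw [h3]
    rcases Nat.eq_zero_or_pos N.W with h4 | h4
    · rw [h4]
    · rw [Nat.mod_eq_of_lt (by omega : 1 < 2 * N.W + 1)]
      rw [Nat.mod_eq_of_lt (by omega)]
      omega
  unfold xc
  rw [h2]; push_cast; ring


instance (N : GridNet D) : NeZero N.M := ⟨by have := N.M_pos; omega⟩

theorem row_succ (N : GridNet D) (y : Fin N.M) (h : y.val + 1 < N.M) : (y + 1).val = y.val + 1 := by
  rw [Fin.val_add_one_of_lt' h]

theorem row_pred (N : GridNet D) (y : Fin N.M) (h : 1 ≤ y.val) : (y - 1).val = y.val - 1 := by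
  have hy := y.isLt
  have h1 : (⟨y.val - 1, by omega⟩ : Fin N.M) + 1 = y := by
    apply Fin.ext
    rw [row_succ N _ (by simp only; omega)]
    simp only; omega
  have h2 : y - 1 = ⟨y.val - 1, by omega⟩ := by
    rw [sub_eq_iff_eq_add]; exact h1.symm
  rw [h2]

theorem row_pred_zero (N : GridNet D) (y : Fin N.M) (h : y.val = 0) :
    (y - 1).val + 1 = N.M := by
  by_contra hc
  have h0 := (y - 1).isLt
  have h1 := row_succ N (y - 1) (by omega)
  rw [sub_add_cancel] at h1
  omega

/-- hubs -/
abbrev Hub (N : GridNet D) : Type := Col N × Fin N.M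

/-- edges: `false` to the right, `true` upwards (cyclic at the border, where nothing flows) -/
abbrev Edge (N : GridNet D) : Type := Hub N × Bool

/-- leaves -/
abbrev Leaf (N : GridNet D) : Type := {i : Col N // N.lf (xc N i)}

noncomputable instance (N : GridNet D) : Fintype (Leaf N) := Fintype.ofFinite _

/-- the other end of an edge -/
def hd (N : GridNet D) (e : Edge N) : Hub N := bif e.2 then (e.1.1, e.1.2 + 1) else (e.1.1 + 1, e.1.2)

/-- flow -/
def fl (N : GridNet D) (τ : ℕ) (e : Edge N) : ℤ :=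
  bif e.2 then N.FV τ (xc N e.1.1) e.1.2.val else N.FH τ (xc N e.1.1) e.1.2.val

theorem hd_eq_iff (N : GridNet D) (v : Hub N) :
    (univ.filter fun e : Edge N => hd N e = v) =
      {((v.1 - 1, v.2), false), ((v.1, v.2 - 1), true)} := by
  ext ⟨⟨i, y⟩, b⟩
  obtain ⟨j, z⟩ := v
  cases b
  · simp only [hd, cond_false, mem_filter, mem_univ, true_and, Prod.mk.injEq, mem_insert,
      mem_singleton, and_true, Bool.false_eq_true, and_false, or_false]
    rw [eq_sub_iff_add_eq]
  · simp only [hd, cond_true, mem_filter, mem_univ, true_and, Prod.mk.injEq, mem_insert,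
      mem_singleton, and_true, Bool.true_eq_false, and_false, false_or]
    rw [eq_sub_iff_add_eq (a := y)]

theorem tl_eq_iff (N : GridNet D) (v : Hub N) :
    (univ.filter fun e : Edge N => e.1 = v) = {(v, false), (v, true)} := by
  ext ⟨w, b⟩
  cases b <;> simp

theorem sum_hd (N : GridNet D) (τ : ℕ) (v : Hub N) :
    (∑ e ∈ univ.filter (fun e : Edge N => hd N e = v), fl N τ e) =
      N.FH τ (xc N v.1 - 1) v.2.val + N.FV τ (xc N v.1) ((v.2.val : ℤ) - 1) := by
  rw [hd_eq_iff, sum_pair (by simp)]
  simp only [fl, cond_false, cond_true]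
  congr 1
  · by_cases h : -(N.W : ℤ) + 1 ≤ xc N v.1
    · rw [xc_pred N v.1 h]
    · have h1 := xc_range N v.1
      have h2 : xc N v.1 = -(N.W : ℤ) := by omega
      rw [xc_pred_zero N v.1 h2]
      have h3 : N.FH τ (N.W : ℤ) v.2.val = 0 := by
        by_contra hc
        have := N.FH_supp _ _ _ hc
        omega
      have h4 : N.FH τ (xc N v.1 - 1) v.2.val = 0 := by
        by_contra hc
        have := N.FH_supp _ _ _ hc
        omega
      rw [h3, h4]
  · by_cases h : 1 ≤ v.2.val
    · rw [row_pred N v.2 h]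
      congr 1
      push_cast [h]
      ring
    · have h0 : v.2.val = 0 := by omega
      have h1 := row_pred_zero N v.2 h0
      have h3 : N.FV τ (xc N v.1) ((v.2 - 1).val : ℤ) = 0 := by
        by_contra hc
        have := N.FV_supp _ _ _ hc
        omega
      have h4 : N.FV τ (xc N v.1) ((v.2.val : ℤ) - 1) = 0 := by
        by_contra hc
        have := N.FV_supp _ _ _ hc
        omega
      rw [h3, h4]

theorem sum_tl (N : GridNet D) (τ : ℕ) (v : Hub N) :
    (∑ e ∈ univ.filter (fun e : Edge N => e.1 = v), fl N τ e) =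
      N.FH τ (xc N v.1) v.2.val + N.FV τ (xc N v.1) v.2.val := by
  rw [tl_eq_iff, sum_pair (by simp)]
  simp [fl]

/-- an edge with some flow is a true edge of the grid -/
theorem hd_of_fl (N : GridNet D) (τ : ℕ) (e : Edge N) (h : fl N τ e ≠ 0) :
    (e.2 = false → xc N (hd N e).1 = xc N e.1.1 + 1 ∧ (hd N e).2 = e.1.2) ∧
    (e.2 = true → (hd N e).1 = e.1.1 ∧ (hd N e).2.val = e.1.2.val + 1) := by
  obtain ⟨⟨i, y⟩, b⟩ := e
  cases b
  · simp only [fl, cond_false] at h
    refine ⟨fun _ => ?_, fun hb => by simp at hb⟩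
    have := N.FH_supp _ _ _ h
    simp only [hd, cond_false, and_true]
    exact xc_succ N i this.2.1
  · simp only [fl, cond_true] at h
    refine ⟨fun hb => by simp at hb, fun _ => ?_⟩
    have := N.FV_supp _ _ _ h
    simp only [hd, cond_true, true_and]
    exact row_succ N y (by omega)

theorem sum_fin_lt (τ : Fin D) (f : ℕ → ℤ) :
    (∑ τ' ∈ univ.filter (fun τ' : Fin D => τ' < τ), f τ') = ∑ j ∈ range τ.val, f j := by
  rw [Finset.sum_filter]
  have h1 : (∑ a : Fin D, if a < τ then f a else 0)
      = ∑ j ∈ range D, if j < τ.val then f j else 0 := by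
    rw [Finset.sum_range]
    rfl
  rw [h1, ← Finset.sum_filter]
  congr 1
  ext j
  simp only [mem_filter, mem_range]
  have := τ.isLt
  omega

/-- the `LevelNet` of a `GridNet` -/
noncomputable def toLevel (N : GridNet D) : LevelNet (Hub N) (Edge N) (Leaf N) D where
  tail e := e.1
  head := hd N
  tip g := (g.1, ⟨(N.tip (xc N g.1)).toNat, by
    have := N.tip_range _ g.2
    omega⟩)
  birth g := ⟨N.birth (xc N g.1), N.birth_lt _ g.2⟩
  snk g := N.snk (xc N g.1)
  X τ v := N.X τ (xc N v.1) v.2.val
  F τ e := fl N τ e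
  h τ g := (xc N g.1 : ℝ) - N.c τ * N.η (xc N g.1)
  dir_pos τ e h := by
    have h1 := hd_of_fl N τ e h.ne'
    obtain ⟨⟨i, y⟩, b⟩ := e
    cases b
    · have h2 := h1.1 rfl
      have h3 := N.H_dir τ (xc N i) y.val τ.isLt (by simpa [fl] using h)
      simp only at h2 ⊢
      rw [h2.1, h2.2]
      exact h3
    · have h2 := h1.2 rfl
      have h3 := N.V_pos τ (xc N i) y.val τ.isLt (by simpa [fl] using h)
      simp only at h2 ⊢
      rw [h2.1, h2.2]
      push_cast
      exact h3
  dir_neg τ e h := by
    have h1 := hd_of_fl N τ e h.ne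
    obtain ⟨⟨i, y⟩, b⟩ := e
    cases b
    · exfalso
      have h3 := N.H_nonneg τ (xc N i) y.val τ.isLt
      simp only [fl, cond_false] at h
      omega
    · have h2 := h1.2 rfl
      have h3 := N.V_neg τ (xc N i) y.val τ.isLt (by simpa [fl] using h)
      simp only at h2 ⊢
      rw [h2.1, h2.2]
      push_cast
      exact h3
  flat τ τ' e hlt hne h0 := by
    have h1 := hd_of_fl N τ' e hne
    obtain ⟨⟨i, y⟩, b⟩ := e
    cases b
    · have h2 := h1.1 rfl
      have h3 := N.H_flat τ τ' (xc N i) y.val hlt τ.isLt (by simpa [fl] using hne)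
        (by simpa [fl] using h0)
      simp only at h2 ⊢
      rw [h2.1, h2.2]
      exact h3
    · have h2 := h1.2 rfl
      have h3 := N.V_flat τ τ' (xc N i) y.val hlt τ.isLt (by simpa [fl] using hne)
        (by simpa [fl] using h0)
      simp only at h2 ⊢
      rw [h2.1, h2.2]
      push_cast
      exact h3
  super τ e hne := by
    obtain ⟨⟨i, y⟩, b⟩ := e
    rw [sum_fin_lt τ (fun t => |fl N t ((i, y), b)|)]
    cases b
    · have h3 := N.H_super τ (xc N i) y.val τ.isLt (by simpa [fl] using hne)
      have h4 := N.H_nonneg τ (xc N i) y.val τ.isLt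
      simp only [fl, cond_false]
      rw [abs_of_nonneg h4]
      refine le_trans (le_of_eq (Finset.sum_congr rfl fun j hj => ?_)) h3
      rw [abs_of_nonneg]
      apply N.H_nonneg
      have := τ.isLt
      have := mem_range.1 hj
      omega
    · have h3 := N.V_super τ (xc N i) y.val τ.isLt (by simpa [fl] using hne)
      simpa only [fl, cond_true] using h3
  leaf_old g τ hlt := by
    have h1 := N.tip_range _ g.2
    have h2 := N.leaf_old (xc N g.1) τ g.2 hlt τ.isLt
    simp only
    rw [Int.toNat_of_nonneg h1.1]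
    exact h2
  leaf_snk g hs := by
    have h1 := N.tip_range _ g.2
    have h2 := N.leaf_snk (xc N g.1) g.2 hs
    simp only
    rw [Int.toNat_of_nonneg h1.1]
    exact h2
  leaf_src g hs := by
    have h1 := N.tip_range _ g.2
    have h2 := N.leaf_src (xc N g.1) g.2 hs
    simp only
    rw [Int.toNat_of_nonneg h1.1]
    exact h2
  cons τ v := by
    rw [sum_hd, sum_tl]
    by_cases hl : N.lf (xc N v.1) ∧ N.birth (xc N v.1) = τ ∧ (v.2.val : ℤ) = N.tip (xc N v.1)
    · obtain ⟨hl1, hl2, hl3⟩ := hl
      have h1 := N.cons_leaf τ (xc N v.1) v.2.val τ.isLt hl1 hl2 hl3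
      have h2 : (univ.filter fun g : Leaf N =>
          (g.1, (⟨(N.tip (xc N g.1)).toNat, by
            have := N.tip_range _ g.2
            omega⟩ : Fin N.M)) = v ∧
          (⟨N.birth (xc N g.1), N.birth_lt _ g.2⟩ : Fin D) = τ) = {⟨v.1, hl1⟩} := by
        ext g
        simp only [mem_filter, mem_univ, true_and, mem_singleton]
        constructor
        · rintro ⟨h, -⟩
          apply Subtype.ext
          exact congrArg Prod.fst h
        · intro h
          subst h
          refine ⟨Prod.ext rfl (Fin.ext ?_), Fin.ext hl2⟩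
          simp only
          omega
      rw [h2, sum_singleton, h1]
    · have h1 := N.cons_else τ (xc N v.1) v.2.val τ.isLt hl
      have h2 : (univ.filter fun g : Leaf N =>
          (g.1, (⟨(N.tip (xc N g.1)).toNat, by
            have := N.tip_range _ g.2
            omega⟩ : Fin N.M)) = v ∧
          (⟨N.birth (xc N g.1), N.birth_lt _ g.2⟩ : Fin D) = τ) = ∅ := by
        rw [Finset.filter_eq_empty_iff]
        rintro g - ⟨h, h'⟩
        apply hl
        have h3 : g.1 = v.1 := by rw [← h]
        have h4 : (N.tip (xc N g.1)).toNat = v.2.val := by rw [← h]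
        have h5 := N.tip_range _ g.2
        rw [← h3]
        refine ⟨g.2, ?_, by omega⟩
        have := congrArg Fin.val h'
        simpa using this
      rw [h2, sum_empty, h1, add_zero]
  level_nonempty τ := by
    obtain ⟨x, hx, hb⟩ := N.level_nonempty τ τ.isLt
    have h1 := N.lf_range x hx
    have h2 : xc N ⟨(x + N.W).toNat, by omega⟩ = x := by
      unfold xc
      simp only
      omega
    refine ⟨⟨⟨(x + N.W).toNat, by omega⟩, by rw [h2]; exact hx⟩, Fin.ext ?_⟩
    simp only
    rw [h2]; exact hb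

end Pool.H50.RNC
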